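import Mathlib
import Pool.Agent.W295.Cl.Final

/-!
# Quotients of Dedekind zeta functions at zeros of small order: groups built from classical groups
in characteristic two, alternating groups and abelian groups

`Pool.Agent.H541R3.ART.ArtinData G s₀` is a family of functions with the formal properties of the
Artin L-functions of a Galois extension `E/K` with group `G` near a point `s₀ ≠ 1`: functions
`L χ` for the irreducible characters `χ` of `G`, meromorphic and not identically zero near `s₀`
(Brauer), and `Lin H ψ` for the linear characters `ψ` of the subgroups `H`, without pole at `s₀`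
(Artin reciprocity and Hecke), such that `Lin H ψ` is the product of the `L χ ^ ⟨χ|_H, ψ⟩`
(induction). In particular `Lin H 1` stands for the Dedekind zeta function of the fixed field of
`H`.

`Pool.Agent.W295.Cl.Fac r S` says that `S` is one of the following groups, where `q` is even:
* `A_m`, `m ≥ 5`, with `r < (2 ^ j - 1) ⌊m / 2 ^ j⌋` for some `j ≥ 2`;
* `SL_n(q)`, `n = a + b`, `a, b ≥ 1` coprime, `r gcd(n, q - 1) (q - 1) < (q ^ a - 1) (q ^ b - 1)`;
* `Sp_{2n}(q)` with `2 (q + 1) r < (q ^ n - 1) (q ^ n - q)`;
* `Ω^±_{2n}(q)`, `n ≥ 4`, with `r < (q ^ (n - 1) + 1) (q ^ (n - 2) - 1)`;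
* `SU_n(q)`, `n ≥ 3`, with `r < (q - 1) q ^ (n - 2)`, and `3 r < q ^ 2 - 1` if `n = 3`, `3 ∣ q + 1`.

`Pool.Agent.W295.Cl.Built r (Fac r) N` says that the normal subgroup `N` of `G` is obtained from
the trivial subgroup by finitely many steps `M ≤ N` of the following two kinds.
* `Lay`: `N / M` is generated by finitely many pairwise commuting subgroups `X i` of `G / M`, each a
  homomorphic image of a group with the property `Fac r`, such that for every `g` in `G / M` and
  every `i` either `g X_i g⁻¹ ≤ X_j` for some `j ≠ i`, or `g` normalizes `X i` and some prime power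
  of `g` induces an inner automorphism of `X i` (`Fam`).
* `Orb`: `N / M` is abelian and every nontrivial linear character of `N / M` has more than `r`
  conjugates under `G / M`.

`Pool.Agent.W295.Cl.BuiltS (Fac r) N` is the same with all abelian steps allowed: every step is of
the kind `Lay` or has `N / M` abelian with `N` normal.
-/

set_option autoImplicit false

open Pool.Agent.H541R3.ART Pool.Agent.W295.Cl

/-- Let `G` be the Galois group of `E/K`, let `r` be the order of `ζ_E` at `s₀`, let `N` be a normal
subgroup of `G` built as above (for example `N = 1`), and let `M` be a subgroup of `G` such that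
`M / (M ∩ N)` is built from abelian groups, classical groups in characteristic two and alternating
groups. Then the order at `s₀` of `ζ_F`, `F = E ^ M`, is at most the order of `ζ_L`, for all
`L = E ^ U` with `F ⊆ L`; more generally for the L-functions of a linear character `ρ` of `M` over
`F` and of `ρ|_U` over `L`. -/
theorem Pool.Agent.Results.MP_9fc8a5_nt.ClassicalEven.result
    (G : Type) [Group G] [Finite G] (s₀ : ℂ) (A : ArtinData G s₀) (r : ℕ)
    (hr : meromorphicOrderAt (A.Lin ⊥ 1) s₀ = (r : WithTop ℤ)) (N : Subgroup G) [N.Normal]
    (hN : Built r (Fac r) N) (U M : Subgroup G) (hUM : U ≤ M)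
    (hM : BuiltS (Fac r) (⊤ : Subgroup (M ⧸ N.subgroupOf M))) (ρ : M →* ℂˣ) :
    meromorphicOrderAt (A.Lin M ρ) s₀
      ≤ meromorphicOrderAt (A.Lin U (ρ.comp (Subgroup.inclusion hUM))) s₀ :=
  ded_classical A hr N hN U M hUM hM ρ
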